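import Pool.Agent.P8H13.AD.Main

/-!
# In every progression of `ℓ` integers `k`: primes followed by the gap `6 k`, `12 k` or `18 k`, in progressions

The question is whether for every `l` there is a progression of `l` primes `p` for which `p + 2` is prime. Here the
property is proved, for one of three multiples of almost every `k`, in the stronger form that `p` and `p + g` are
consecutive primes, with narrow progressions.

Let `m 0, ..., m 3` be distinct natural numbers. Let `N` be a modulus, `a` a class prime to `N` and `b ≥ 1` such that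
the numbers `b m i` miss a class modulo every prime that does not divide `N`. Call `k` good if for one of the gaps
`g = N b |m j - m i| k` there are, for every length `l`, progressions of `l` primes `p ≡ a (mod N)` each of which is
followed by the gap `g`, with a difference `≤ (log x) ^ C`, and `x / (log x) ^ C` of them up to `x`.

1. There is a number `ℓ`, which depends only on the `m i`, such that EVERY arithmetic progression
`x, x + d, ..., x + (ℓ - 1) d` of positive integers contains a good `k`.
2. So (by Szemerédi's theorem) the set of the bad `k` has upper Banach density `0`: for every `ε > 0` there is `L`,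
which depends only on `ε` and the `m i`, such that in every window `(u, u + T]` with `T ≥ L` all but `ε T` of the `k`
are good.

`N = 2`, `b = 3`, `m = (0, 1, 2, 3)`: one of `6 k, 12 k, 18 k`. `N = 2`, `b = 1`, `m = (0, 1, 3, 4)`: one of
`d, 2 d, 3 d, 4 d`, for some even `d = 2 k` in every progression of `ℓ` even numbers, and almost every even `d`.

Proof: if all members of a long progression were bad, there would be four classes of shifts such that the differences
between the classes `i` and `j` are of the form `b (m j - m i) k` with `k` bad; the coloured Maynard-Tao theorem along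
narrow progressions (`Pool.Agent.Y827.RO.narR`, starting files) gives long narrow progressions along which two classes
are hit by primes, all the other numbers of the window being composite; by van der Waerden's theorem the exact set of
the shifts at which there are primes is constant along a subprogression, and two neighbours in it are in different
classes. The second part follows by the density Hales-Jewett theorem (`Pool.Agent.Y863.AA.msz`, starting files).
-/

set_option autoImplicit false

namespace Pool.Agent.Results.MP_a1f59e_nt.AlmostAllDilates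

open Finset Filter

/-- `p ≡ a (mod N)` is a prime and the next prime is `p + g` -/
def GapAfter (N a g p : ℕ) : Prop :=
  p ≡ a [MOD N] ∧ p.Prime ∧ (p + g).Prime ∧ ∀ t : ℕ, p < t → t < p + g → ¬ t.Prime

/-- For every length `l` there is `C` such that for arbitrarily large `x` there is a difference
`1 ≤ D ≤ (log x) ^ C` for which at least `x / (log x) ^ C` of the `1 ≤ m ≤ x` are such that each of the `l` numbers
`p = m, m + D, ..., m + (l - 1) D` is a prime `≡ a (mod N)` and the next prime after `p` is `p + g`. -/
def AllLengths (N a g : ℕ) : Prop := ∀ l : ℕ, ∃ C : ℕ, ∃ᶠ x : ℕ in atTop, ∃ D : ℕ, 1 ≤ D ∧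
  (D : ℝ) ≤ Real.log x ^ C ∧ (x : ℝ) / Real.log x ^ C ≤
    ({m : ℕ | 1 ≤ m ∧ m ≤ x ∧ ∀ j < l, GapAfter N a g (m + j * D)}.ncard : ℝ)

theorem of_narGap {N a g : ℕ} (h : Pool.Agent.P8H13.AD.NarGap N a g) : AllLengths N a g := by
  classical
  intro l
  obtain ⟨C, hC⟩ := h l
  refine ⟨C, hC.mono ?_⟩
  rintro x ⟨D, h1, h2, h3⟩
  refine ⟨D, h1, h2, h3.trans (le_of_eq ?_)⟩
  unfold Pool.Agent.P8H13.AD.cG
  rw [← Set.ncard_coe_finset]
  congr 2
  ext m
  rw [mem_coe, mem_filter, mem_Icc, Set.mem_ofPred_eq, and_assoc]
  rfl

/-- `k` is good: for one of the gaps `g = N b (m j - m i) k`, `m i < m j`, there are long narrow progressions of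
primes `p ≡ a (mod N)` for which the next prime is `p + g`. -/
def Good (m : Fin 4 → ℕ) (N a b k : ℕ) : Prop :=
  ∃ i j, m i < m j ∧ AllLengths N a (N * (b * ((m j - m i) * k)))

theorem good_of {m : Fin 4 → ℕ} {N a b k : ℕ} (h : Pool.Agent.P8H13.AD.GoodK m N a b k) : Good m N a b k := by
  obtain ⟨i, j, hij, h⟩ := h
  exact ⟨i, j, hij, of_narGap h⟩

open Classical in
theorem result (m : Fin 4 → ℕ) (hm : Function.Injective m) :
    (∃ ℓ : ℕ, ∀ N a : ℕ, 1 ≤ N → a.Coprime N → ∀ b : ℕ, 1 ≤ b →
      (∀ p : ℕ, p.Prime → ¬ p ∣ N → ∃ r : ℤ, ∀ i, ¬ (p : ℤ) ∣ b * m i + r) →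
      ∀ x d : ℕ, 1 ≤ x → 1 ≤ d → ∃ t < ℓ, Good m N a b (x + t * d)) ∧
    ∀ ε : ℝ, 0 < ε → ∃ L : ℕ, ∀ N a : ℕ, 1 ≤ N → a.Coprime N → ∀ b : ℕ, 1 ≤ b →
      (∀ p : ℕ, p.Prime → ¬ p ∣ N → ∃ r : ℤ, ∀ i, ¬ (p : ℤ) ∣ b * m i + r) →
      ∀ u T : ℕ, L ≤ T →
      (1 - ε) * (T : ℝ) ≤ (((Ioc u (u + T)).filter (fun k => Good m N a b k)).card : ℝ) := by
  constructor
  · obtain ⟨ℓ, h⟩ := Pool.Agent.P8H13.AD.dilAP m hm
    refine ⟨ℓ, fun N a hN ha b hb hadm x d hx hd => ?_⟩
    obtain ⟨t, ht, hg⟩ := h N a hN ha b hb hadm x d hx hd
    exact ⟨t, ht, good_of hg⟩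
  · intro ε hε
    obtain ⟨L, hL⟩ := Pool.Agent.P8H13.AD.allDil m hm ε hε
    refine ⟨L, fun N a hN ha b hb hadm u T hT => (hL N a hN ha b hb hadm u T hT).trans ?_⟩
    rw [Nat.cast_le]
    apply card_le_card
    intro k hk
    rw [mem_filter] at hk ⊢
    exact ⟨hk.1, good_of hk.2⟩

end Pool.Agent.Results.MP_a1f59e_nt.AlmostAllDilates
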