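import Pool.Agent.P8H6.Nar.Main

set_option autoImplicit false

/-!
# Almost every admissible set of `T` shifts: all patterns on `5 T / 18` of its elements along narrow progressions

The question is about progressions `m, m + D, ..., m + (l - 1) D` of primes such that the numbers `m + j D + 2` are
prime too. Here `{0, 2}` is replaced by sets of `T` integers. For every `T` there are `c > 0` and `C` such that for
ALL finite sets `V_1, ..., V_T` of at least `n` integers all but `C n ^ (-c) |V_1| ... |V_T|` of the admissible sets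
`H = {v_1, ..., v_T}`, `v_i ∈ V_i`, contain a set `F` of at least `5 T / 18` elements such that for every length `l`
and for EVERY subset `J` of `F` there are arbitrarily long narrow progressions: for arbitrarily large `x` there is
`1 ≤ D ≤ (log x) ^ C'` such that for at least `x / (log x) ^ C'` of the `m ≤ x`, for each of the `l` numbers
`p = m, m + D, ..., m + (l - 1) D`, the `h ∈ H` for which `p + h` is prime are exactly the elements of `J`; all `p` are
in a prescribed residue class modulo `q`.

So the statement of the question, for every length, holds for all pairs in `F` and indeed for `F` itself.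

Proof: the coloured Maynard-Tao theorem with all patterns along narrow progressions (`Pool.Agent.Y827.HN.patR`,
starting files), whose proof gives more than its statement: the patterns are patterns of the whole transversal
(`Pool.Agent.P8H6.Nar.patT`), and the box theorem with a power saving (`Pool.Agent.N900.FC.box_saving`, starting
files).
-/

namespace Pool.Agent.Results.MP_a1f59e_nt.AlmostEverySet

open Finset Filter

/-- `n ≡ b` modulo `q`, and of the numbers `n + h`, `h ∈ H`, exactly those with `h ∈ J` are prime -/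
def Pattern (q b : ℕ) (H J : Finset ℤ) (n : ℕ) : Prop :=
  n ≡ b [MOD q] ∧ ∀ h ∈ H, (((n : ℤ) + h).toNat.Prime ↔ h ∈ J)

/-- for every length `l` there is `C` such that for arbitrarily large `x` every `J ⊆ F` has a difference
`1 ≤ D ≤ (log x) ^ C` for which at least `x / (log x) ^ C` of the `1 ≤ m ≤ x` are such that the pattern `J` (in `H`)
occurs at all the numbers `m, m + D, ..., m + (l - 1) D` -/
def AllLengths (q b : ℕ) (H F : Finset ℤ) : Prop :=
  ∀ l : ℕ, ∃ C : ℕ, ∃ᶠ x : ℕ in atTop, ∀ J ⊆ F, ∃ D : ℕ, 1 ≤ D ∧ (D : ℝ) ≤ Real.log x ^ C ∧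
    (x : ℝ) / Real.log x ^ C ≤ ({m : ℕ | 1 ≤ m ∧ m ≤ x ∧ ∀ j < l, Pattern q b H J (m + j * D)}.ncard : ℝ)

/-- for every prime `p` there is `n` such that no `n + v i` is divisible by `p` -/
def Admissible {T : ℕ} (v : Fin T → ℤ) : Prop := ∀ p : ℕ, p.Prime → ∃ n : ℤ, ∀ i, ¬ (p : ℤ) ∣ n + v i

/-- the `T`-tuples `v ∈ V_1 × ... × V_T` with different entries, which form an admissible set `H` with all
`b + h` prime to `q`, without a subset `F` of at least `5 T / 18` elements with the property `AllLengths` -/
def Exceptional (q b : ℕ) {T : ℕ} (V : Fin T → Finset ℤ) : Set (Fin T → ℤ) :=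
  {v | (∀ i, v i ∈ V i) ∧ Function.Injective v ∧ Admissible v ∧ (∀ i, IsCoprime (q : ℤ) ((b : ℤ) + v i)) ∧
    ¬ ∃ F : Finset ℤ, F ⊆ univ.image v ∧ 5 * T ≤ 18 * F.card ∧ AllLengths q b (univ.image v) F}

theorem result (T : ℕ) (hT : 1 ≤ T) : ∃ c C : ℝ, 0 < c ∧ 0 < C ∧ ∀ q b : ℕ, 1 ≤ q →
    ∀ (n : ℕ) (V : Fin T → Finset ℤ), 1 ≤ n → (∀ i, n ≤ (V i).card) →
      ((Exceptional q b V).ncard : ℝ) ≤ C / (n : ℝ) ^ c * ∏ i, ((V i).card : ℝ) := by
  classical
  obtain ⟨c, C, hc, hC, h⟩ := Pool.Agent.P8H6.Nar.almost T hT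
  refine ⟨c, C, hc, hC, fun q b hq n V hn hV => (le_of_eq ?_).trans (h q b hq n V hn hV)⟩
  rw [← Set.ncard_coe_finset, Nat.cast_inj]
  congr 1
  ext v
  have h5 : ∀ F : Finset ℤ, ((T : ℝ) ≤ 18 / 5 * (F.card : ℝ)) ↔ 5 * T ≤ 18 * F.card := by
    intro F
    rw [← @Nat.cast_le ℝ]
    push_cast
    constructor <;> intro h <;> linarith
  unfold Exceptional Pool.Agent.P8H6.Nar.Exc
  rw [Set.mem_ofPred_eq, mem_coe, mem_filter, Fintype.mem_piFinset]
  unfold Pool.Agent.P8H6.Nar.IsExc
  simp only [h5]
  rfl

end Pool.Agent.Results.MP_a1f59e_nt.AlmostEverySet
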