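import Pool.Agent.N646.TT.Fin
import Pool.Agent.TH891.SG.Pr2
import Pool.Agent.P8H13.CA.One

/-!
# Szemerédi's theorem in the prime pairs `p, p + d`, with small differences, for one third of the even `d`

`Pairs x d` is the set of the primes `p ≤ x` for which `p + d` is prime too. For a proportion `1/3 - ε` of the even `d`
(of the multiples `d` of `2 b`) up to `2 b H`, for every scale `H` between `λ log x` and `x / (100 b)`, the set
`Pairs x d` has at least `κ 𝔖(d) x / (log x) ^ 2` elements, and in EVERY subset `U` of `Pairs x d` all but at most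
`η |Pairs x d|` of the elements are first terms of progressions of `m` elements of `U` with a difference
`≤ (log x) ^ B`. So every subset of positive proportion contains long narrow progressions of prime pairs, and almost
all pairs begin one.

Method: the relative Szemerédi theorem with small differences, uniformly in the linear forms (`Pool.Agent.Y840.PT`
of the starting files, after Tao and Ziegler) in the form `Pool.Agent.P8H13.CA.one_U`, applied to the set of all
elements of `U` which are not first terms (`part1`, for all even `d`, including `d = 2`); and the theorem of the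
starting files (`Pool.Agent.N646.TT`) that one third of the even differences occur with the right order of magnitude.
-/

set_option autoImplicit false

open Finset

namespace Pool.Agent.Results.MP_a1f59e_nt.DenseSubsetsOfPairs

/-- The twin prime constant `C₂`. -/
noncomputable def C2 : ℝ := ∏' p : {p : ℕ // p.Prime ∧ 2 < p}, (1 - 1 / (((p.1 : ℕ) : ℝ) - 1) ^ 2)

/-- `𝔖(d) = 2 C₂ ∏_{p ∣ d, p ≥ 3} (p - 1) / (p - 2)`, used for even `d`. -/
noncomputable def S (d : ℕ) : ℝ :=
  2 * C2 * ∏ p ∈ d.primeFactors.filter (fun p : ℕ => 2 < p), (((p : ℝ) - 1) / ((p : ℝ) - 2))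

/-- the primes `p ≤ x` for which `p + d` is prime -/
def Pairs (x : ℝ) (d : ℕ) : Set ℕ := {p : ℕ | (p : ℝ) ≤ x ∧ p.Prime ∧ (p + d).Prime}

/-- the first terms `a` of progressions `a, a + D, ..., a + (m - 1) D` in `U` with a difference `1 ≤ D ≤ Q` -/
def First (m : ℕ) (Q : ℝ) (U : Set ℕ) : Set ℕ :=
  {a | a ∈ U ∧ ∃ D : ℕ, 1 ≤ D ∧ (D : ℝ) ≤ Q ∧ ∀ j < m, a + j * D ∈ U}

theorem pairs_finite (x : ℝ) (d : ℕ) : (Pairs x d).Finite :=
  (Set.finite_le_nat ⌊x⌋₊).subset fun _ hn => Nat.le_floor hn.1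

theorem S_pos {d : ℕ} (hd : 2 ≤ d) (he : Even d) : 0 < S d ∧ S d = Pool.Agent.H387R2.Uni.CT {0, d} := by
  have hS : S d = Pool.Agent.H387R2.Uni.CT {0, d} := (Pool.Agent.TH891.SG.CT_pair hd he).symm
  refine ⟨?_, hS⟩
  rw [hS, Pool.Agent.TH891.SG.CT_pos_iff]
  intro p hp
  rw [Pool.Agent.TH891.SG.nuT_pair hp]
  split_ifs with h
  · exact hp.one_lt
  · have : p ≠ 2 := by
      rintro rfl
      exact h he.two_dvd
    exact lt_of_le_of_ne hp.two_le (Ne.symm this)

/-- Uniformly in ALL positive even `d` (also `d = 2`): in every set `U` of primes `p ≤ x` with `p + d` prime all but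
at most `ρ 𝔖(d) x / (log x) ^ 2` of the elements are first terms of `m`-term progressions in `U` with a difference
`≤ (log x) ^ B`. -/
theorem part1 (m : ℕ) (ρ : ℝ) (hρ : 0 < ρ) : ∃ (B : ℕ) (x₀ : ℝ), ∀ x : ℝ, x₀ ≤ x → ∀ d : ℕ, 0 < d → Even d →
    ∀ U ⊆ Pairs x d, ((U \ First m (Real.log x ^ B) U).ncard : ℝ) ≤ ρ * (S d * x / Real.log x ^ 2) := by
  classical
  obtain ⟨B, x₀, h⟩ := Pool.Agent.P8H13.CA.one_U 2 (m + 1) ρ hρ
  refine ⟨B, x₀, fun x hx d hd he U hU => ?_⟩
  have hd2 : 2 ≤ d := by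
    obtain ⟨r, hr⟩ := he
    omega
  obtain ⟨hpos, hS⟩ := S_pos hd2 he
  have hfin : (U \ First m (Real.log x ^ B) U).Finite := ((pairs_finite x d).subset hU).subset Set.diff_subset
  set V : Finset ℕ := hfin.toFinset with hV
  have hVmem : ∀ n ∈ V, n ∈ U ∧ n ∉ First m (Real.log x ^ B) U := by
    intro n hn
    rw [hV, Set.Finite.mem_toFinset] at hn
    exact hn
  have hcard : (U \ First m (Real.log x ^ B) U).ncard = V.card := by
    rw [Set.ncard_eq_toFinset_card _ hfin]
  rw [hcard]
  by_contra hlt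
  rw [not_le] at hlt
  obtain ⟨a, D, hD1, hD2, hD3⟩ := h x hx {0, d} (card_pair (by omega)) (by rw [← hS]; exact hpos) V (by
    intro n hn
    obtain ⟨h1, h2, h3⟩ := hU (hVmem n hn).1
    unfold Pool.Agent.Y840.PT.Pts
    rw [mem_filter, mem_Icc]
    refine ⟨⟨h2.one_lt.le, Nat.le_floor h1⟩, ?_⟩
    intro t ht
    rw [mem_insert, mem_singleton] at ht
    rcases ht with rfl | rfl
    · exact h2
    · exact h3) (by
    rw [← hS, ← mul_div_assoc]
    exact hlt.le)
  have h0 := hD3 0 (by omega)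
  rw [zero_mul, add_zero] at h0
  obtain ⟨h1, h2⟩ := hVmem a h0
  exact h2 ⟨h1, D, hD1, hD2, fun j hj => (hVmem _ (hD3 j (by omega))).1⟩

open Classical in
/-- For all `b ≥ 1`, `ε > 0` and `λ > 0` there is `κ > 0` such that for all `m` and `η > 0` there are `B` and `X`
such that for all `x ≥ X` and every `H` with `λ log x ≤ H` and `100 b H ≤ x`: at least `(1/3 - ε) H` of the integers
`1 ≤ k ≤ H` have the following property, with `d = 2 b k`. There are at least `κ 𝔖(d) x / (log x) ^ 2` primes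
`p ≤ x` with `p + d` prime, and in every subset `U` of the set of these `p` all but at most the proportion `η` of all
these `p` are first terms of `m`-term progressions in `U` with a difference `≤ (log x) ^ B`. -/
theorem result (b : ℕ) (hb : 1 ≤ b) (ε lam : ℝ) (hε : 0 < ε) (hlam : 0 < lam) : ∃ κ : ℝ, 0 < κ ∧
    ∀ (m : ℕ) (η : ℝ), 0 < η → ∃ (B : ℕ) (X : ℝ), ∀ x : ℝ, X ≤ x →
    ∀ H : ℕ, lam * Real.log x ≤ H → 100 * b * (H : ℝ) ≤ x →
    (1 / 3 - ε) * (H : ℝ) ≤ (((Icc 1 H).filter (fun k : ℕ =>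
      κ * (S (2 * b * k) * x / Real.log x ^ 2) ≤ ((Pairs x (2 * b * k)).ncard : ℝ) ∧
      ∀ U ⊆ Pairs x (2 * b * k), ((U \ First m (Real.log x ^ B) U).ncard : ℝ) ≤
        η * ((Pairs x (2 * b * k)).ncard : ℝ))).card : ℝ) := by
  obtain ⟨κ, hκ, X, hX⟩ := Pool.Agent.N646.TT.fin (2 * C2) b hb ε lam hε hlam
  refine ⟨κ, hκ, fun m η hη => ?_⟩
  obtain ⟨B, x₀, h1⟩ := part1 m (η * κ) (by positivity)
  refine ⟨B, max X x₀, fun x hx H hH hHx => ?_⟩
  refine (hX x ((le_max_left _ _).trans hx) H hH hHx).trans ?_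
  rw [Nat.cast_le]
  apply card_le_card
  intro k hk
  rw [mem_filter] at hk ⊢
  obtain ⟨hk1, hk2⟩ := hk
  have hk0 : 1 ≤ k := (mem_Icc.1 hk1).1
  have hd : 0 < 2 * b * k := by positivity
  have he : Even (2 * b * k) := ⟨b * k, by ring⟩
  have h2 : κ * (S (2 * b * k) * x / Real.log x ^ 2) ≤ ((Pairs x (2 * b * k)).ncard : ℝ) := by
    refine le_trans hk2 ?_
    rw [Nat.cast_le]
    unfold Pool.Agent.N646.TT.pi2
    rw [← Set.ncard_coe_finset]
    apply Set.ncard_le_ncard_of_injOn (fun p : ℕ => p - 2 * b * k) _ _ (pairs_finite x _)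
    · intro p hp
      rw [mem_coe, mem_filter, mem_Icc] at hp
      obtain ⟨⟨h3, h4⟩, h5, h6⟩ := hp
      have h7 : 2 * b * k < p := by
        by_contra h8
        rw [Nat.sub_eq_zero_of_le (not_lt.1 h8)] at h6
        exact Nat.not_prime_zero h6
      have hx0 : (0 : ℝ) ≤ x := by
        refine le_trans ?_ hHx
        positivity
      refine ⟨?_, h6, ?_⟩
      · have h8 : ((p - 2 * b * k : ℕ) : ℝ) ≤ (⌊x⌋₊ : ℝ) := by
          exact_mod_cast (by omega : p - 2 * b * k ≤ ⌊x⌋₊)
        exact h8.trans (Nat.floor_le hx0)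
      · rwa [Nat.sub_add_cancel h7.le]
    · intro p hp q hq hpq
      rw [mem_coe, mem_filter] at hp hq
      have h7 : 2 * b * k < p := by
        by_contra h8
        have h6 := hp.2.2
        rw [Nat.sub_eq_zero_of_le (not_lt.1 h8)] at h6
        exact Nat.not_prime_zero h6
      have h8 : 2 * b * k < q := by
        by_contra h8
        have h6 := hq.2.2
        rw [Nat.sub_eq_zero_of_le (not_lt.1 h8)] at h6
        exact Nat.not_prime_zero h6
      simp only at hpq
      omega
  refine ⟨hk1, h2, fun U hU => ?_⟩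
  refine (h1 x ((le_max_right _ _).trans hx) _ hd he U hU).trans ?_
  rw [mul_assoc]
  exact mul_le_mul_of_nonneg_left h2 hη.le

end Pool.Agent.Results.MP_a1f59e_nt.DenseSubsetsOfPairs
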