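import Mathlib
import Pool.Agent.P8H77.SG.App3

/-!
# Long progressions of primes followed by a given gap, for three numbers with a given sum

The problem asks for arbitrarily long arithmetic progressions of primes `p` for which `p + 2` is prime. Let `S`
be the set of the even numbers `d` for which the primes `p` whose next prime is `p + d` contain arithmetic
progressions of every length, even narrow ones, with difference at most a power of `log x`, and
`x / (log x) ^ C` of them up to `x`, for arbitrarily large `x`. The conjectures predict that `S` consists of all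
even numbers. Theorem: every sufficiently large multiple `n` of `12` is a sum `d₁ + d₂ + d₃` of three elements of
`S`, in at least `c n ^ 2` ways (`c > 0`).

More generally, let `N` be even, `a` prime to `N`, `m` a positive multiple of `N`. The same holds for the
multiples `n` of `6 m`, multiples `d₁`, `d₂`, `d₃` of `m` and primes `p ≡ a (mod N)`.

The proof. The coloured Maynard-Tao theorem with exact patterns along narrow progressions (starting files,
`Pool.Agent.Y827.RO.blockE`) gives: any four classes of `K` shifts which miss a residue class modulo every prime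
contain two shifts, of different classes, whose difference is in `S`. The additive part is the one of
`MP_3ec731_nt.SumsOfThreeGaps`: limit sets along ultrafilters of a hypothetical sequence of numbers with few
representations.
-/

set_option autoImplicit false

namespace Pool.Agent.Results.MP_a1f59e_nt.SumsOfThreeDifferences

open Filter

/-- `p` is a prime `≡ a (mod N)` and the next prime is `p + d` -/
def NextPrime (N a d p : ℕ) : Prop :=
  p.Prime ∧ p ≡ a [MOD N] ∧ (p + d).Prime ∧ 0 < d ∧ ∀ r, p < r → r < p + d → ¬ r.Prime

/-- For every length `l` there is `C` such that, for arbitrarily large `x`, for some `D` with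
`1 ≤ D ≤ (log x) ^ C` and for at least `x / (log x) ^ C` of the `s ≤ x`, all terms of the progression
`s, s + D, …, s + (l - 1) D` are primes `p ≡ a (mod N)` whose next prime is `p + d`. -/
def ManyProgressions (N a d : ℕ) : Prop :=
  ∀ l : ℕ, ∃ C : ℕ, ∃ᶠ x : ℕ in atTop, ∃ D : ℕ, 1 ≤ D ∧ (D : ℝ) ≤ (Real.log x) ^ C ∧
    (x : ℝ) / (Real.log x) ^ C ≤
      ({s : ℕ | 1 ≤ s ∧ s ≤ x ∧ ∀ j < l, NextPrime N a d (s + j * D)}.ncard : ℝ)

/-- Let `N` be even, `a` prime to `N`, and `m` a positive multiple of `N`. There is `c > 0` such that every
sufficiently large multiple `n` of `6 m` has at least `c n ^ 2` representations `n = d 0 + d 1 + d 2` with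
multiples `d i` of `m` such that there are many arithmetic progressions of every length of primes
`p ≡ a (mod N)` whose next prime is `p + d i`. For `m = N = 2`, `a = 1`: all large multiples of `12`. -/
theorem result (m N a : ℕ) (hm : 0 < m) (hN : Even N) (hNm : N ∣ m) (ha : a.Coprime N) :
    ∃ c : ℝ, 0 < c ∧ ∀ᶠ n : ℕ in atTop, 6 * m ∣ n → c * (n : ℝ) ^ 2 ≤
      ({d : Fin 3 → ℕ | n = d 0 + d 1 + d 2 ∧ ∀ i, m ∣ d i ∧ ManyProgressions N a (d i)}.ncard : ℝ) :=
  Pool.Agent.P8H77.SG.three_nar_count m N a hm hN.two_dvd hNm ha (ManyProgressions N a)
    fun _ h => Pool.Agent.P8H77.SG.nar_ncard h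

end Pool.Agent.Results.MP_a1f59e_nt.SumsOfThreeDifferences
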